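import Pool.Agent.Helper44.LLK.Nik

/-!
The density: exact vanishing of the coefficients of degree `1, ..., n`, all coefficients exponentially
smaller than the variance, distance to `1` in `L¹` and from above about `(√3/2)^d`.
-/

set_option autoImplicit false

open MeasureTheory Set Polynomial

namespace Pool.Agent.Helper44.LLK

open Pool.Agent.Helper47.KP
open Pool.Agent.Helper47.LB
open Pool.Agent.Helper86.LP (integrable_den abs_PP_pow_le)
open Pool.Agent.Helper34.KU (cap_half)

variable {d : ℕ}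

/-- the mass of the cap -/
lemma cap_mass (hd : 4 ≤ d) : 2 * (cst d * ∫ t in (1 / 2 : ℝ)..1, wt (d - 3) t) ≤ VV d := by
  have h1 := cst_le hd
  have h2 := tail_le (d - 3)
  have h3 : 0 ≤ ∫ t in (1 / 2 : ℝ)..1, wt (d - 3) t :=
    intervalIntegral.integral_nonneg (by norm_num) fun t _ => wt_nonneg _ t
  have h4 := mul_le_mul h1 h2 h3 (Real.sqrt_nonneg _)
  unfold VV
  linarith

/-- the coefficients of the cap -/
lemma cap_part (hd : 8 ≤ d) {n j : ℕ} (hn : 4 * n ≤ d - 3) (hj : n < j) :
    cst d * |∫ t in (1 / 2 : ℝ)..1, (PP d j).eval t * wt (d - 3) t| ≤ VV d * (2 * (1 / 4) ^ (n / 2)) := by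
  obtain ⟨D, rfl⟩ : ∃ D, d = D + 3 := ⟨d - 3, by omega⟩
  obtain ⟨i, rfl⟩ : ∃ i, j = i + 1 := ⟨j - 1, by omega⟩
  have e : D + 3 - 3 = D := by omega
  have h1 := cst_le (d := D + 3) (by omega)
  rw [e] at h1 hn ⊢
  have h2 := cap_half D i (M := n / 2) (by omega) (by omega)
  have hD0 : (0 : ℝ) ≤ D := Nat.cast_nonneg D
  have h3 : √(2 * ((D : ℝ) + 1)) ≤ (D : ℝ) + 2 := by
    rw [Real.sqrt_le_left (by linarith)]
    nlinarith
  have h4 : √(3 / 4 : ℝ) ^ (D + 2) = √(3 / 4) ^ D * (3 / 4) := by
    rw [pow_add, Real.sq_sqrt (by norm_num)]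
  have h5 : 2 * √(2 * ((D : ℝ) + 1)) * √(3 / 4) ^ (D + 2) * (1 / 4) ^ (n / 2) / ((D : ℝ) + 2) ≤
      √(3 / 4) ^ D * (2 * (1 / 4) ^ (n / 2)) := by
    rw [h4, div_le_iff₀ (by linarith)]
    have hp : 0 ≤ √(3 / 4 : ℝ) ^ D * (1 / 4) ^ (n / 2) := by positivity
    have := mul_le_mul_of_nonneg_left h3 hp
    nlinarith
  calc cst (D + 3) * |∫ t in (1 / 2 : ℝ)..1, (PP (D + 3) (i + 1)).eval t * wt D t|
      ≤ √(2 * (D : ℝ)) * (√(3 / 4) ^ D * (2 * (1 / 4) ^ (n / 2))) :=
        mul_le_mul h1 (h2.trans h5) (abs_nonneg _) (Real.sqrt_nonneg _)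
    _ = VV (D + 3) * (2 * (1 / 4) ^ (n / 2)) := by
        unfold VV
        rw [e]
        ring

/-- the density -/
theorem density_core [NeZero d] (hd : 8 ≤ d) {n : ℕ} (hn : 4 * n ≤ d - 3) {b : ℝ} (hb0 : 0 < b)
    (hb2 : b < 1 / 2) (hN : 4 * (cst d * NN d n * wt (d - 3) b) ≤ 1) (hS : NN d n * VV d ≤ 1) :
    ∃ g : ℝ → ℝ, Measurable g ∧ (∀ t, 0 ≤ g t) ∧ (∀ t, g t ≤ 1 + NN d n * VV d) ∧
      (∀ t, 1 / 2 < t → g t = 0) ∧ (∀ t, |g t - 1| ≤ 1) ∧ ∫ t, g t ∂(den d) = 1 ∧
      ∫ t, (g t - 1) ^ 2 ∂(den d) ≤ VV d ∧ ∫ t, |g t - 1| ∂(den d) ≤ (NN d n + 1) * VV d ∧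
      (∀ j, 1 ≤ j → |∫ t, g t * (PP d j).eval t ∂(den d)| ≤
        VV d * (2 * (1 / 4) ^ (n / 2) + 2 * (cst d * NN d n * wt (d - 3) b))) ∧
      ∀ j, 1 ≤ j → j ≤ n → ∫ t, g t * (PP d j).eval t ∂(den d) = 0 := by
  have hd3 : 3 ≤ d := by omega
  have hd4 : 4 ≤ d := by omega
  have hb1 : b < 1 := by linarith
  have hVV := VV_pos hd4
  have hNN := NN_nonneg (d := d) hd3 n
  have hw := continuous_wt (d - 3)
  have hcst := cst_pos d
  set μ := ∫ t in (1 / 2 : ℝ)..1, wt (d - 3) t with hμ
  have hμ0 : 0 ≤ μ := intervalIntegral.integral_nonneg (by norm_num) fun t _ => wt_nonneg _ t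
  have hμV : 2 * (cst d * μ) ≤ VV d := cap_mass hd4
  obtain ⟨q, hqn, hq⟩ := exists_q n (d - 3) hb0 hb1
  obtain ⟨hqs, hqi⟩ := q_sup hd4 hb0 hb1 hN hqn hq
  rw [← hμ] at hqs hqi
  set S := 2 * NN d n * (cst d * μ) with hSdef
  have hS0 : 0 ≤ S := by positivity
  have hSV : S ≤ NN d n * VV d := by
    calc S = NN d n * (2 * (cst d * μ)) := by rw [hSdef]; ring
      _ ≤ _ := mul_le_mul_of_nonneg_left hμV hNN
  have hS1 : S ≤ 1 := hSV.trans hS
  -- the function `a`
  set a : ℝ → ℝ := fun t => q.eval (max (-b) (min b t)) with ha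
  have hac : Continuous a := q.continuous.comp (by fun_prop)
  have har : ∀ t, |a t| ≤ S := by
    intro t
    apply hqs
    exact ⟨le_trans (by linarith) (le_max_left _ _), max_le (by linarith) ((min_le_left _ _).trans (by linarith))⟩
  have haq : ∀ t ∈ uIcc (-b) b, a t = q.eval t := by
    intro t ht
    rw [uIcc_of_le (by linarith)] at ht
    simp only [ha]
    rw [min_eq_right ht.2, max_eq_right ht.1]
  have hb := dens_bounds hb2 hS1 har
  have hgm := measurable_dens b hac.measurable
  have hprob := Pool.Agent.Helper86.LP.den_prob hd3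
  -- moments
  have hmom : ∀ f : ℝ[X], f.natDegree ≤ n →
      ∫ t, dens b a t * f.eval t ∂(den d) = ∫ t, f.eval t ∂(den d) := by
    intro f hf
    rw [integral_dens hb0 hb2 hac f.continuous, integral_den]
    have e1 : ∫ t in (-b)..b, a t * (f.eval t * wt (d - 3) t) =
        ∫ t in (1 / 2 : ℝ)..1, f.eval t * wt (d - 3) t := by
      rw [← hq f hf]
      apply intervalIntegral.integral_congr
      intro t ht
      simp only [haq t ht]
    rw [e1]
    congr 1
    exact intervalIntegral.integral_add_adjacent_intervals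
      ((f.continuous.mul hw).intervalIntegrable _ _) ((f.continuous.mul hw).intervalIntegrable _ _)
  -- variance
  have hvar : ∫ t, (dens b a t - 1) ^ 2 ∂(den d) ≤ VV d := by
    rw [integral_var hb0 hb2 hac]
    have e1 : ∫ t in (-b)..b, a t ^ 2 * wt (d - 3) t = ∫ t in (-b)..b, q.eval t ^ 2 * wt (d - 3) t := by
      apply intervalIntegral.integral_congr
      intro t ht
      simp only [haq t ht]
    rw [e1, ← hμ]
    have e2 : ∫ t in (-b)..b, q.eval t ^ 2 * wt (d - 3) t ≤ μ := by
      refine hqi.trans ?_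
      calc S * μ ≤ 1 * μ := mul_le_mul_of_nonneg_right hS1 hμ0
        _ = μ := one_mul μ
    calc cst d * (μ + ∫ t in (-b)..b, q.eval t ^ 2 * wt (d - 3) t)
        ≤ cst d * (μ + μ) := mul_le_mul_of_nonneg_left (by linarith) hcst.le
      _ = 2 * (cst d * μ) := by ring
      _ ≤ VV d := hμV
  -- the distance in `L¹`
  have hgi : Integrable (fun t => |dens b a t - 1|) (den d) := by
    refine Integrable.of_bound (hgm.sub_const 1).abs.aestronglyMeasurable 1 ?_
    refine Filter.Eventually.of_forall fun t => ?_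
    rw [Real.norm_eq_abs, abs_abs]
    exact (hb t).2.2
  have hL1 : ∫ t, |dens b a t - 1| ∂(den d) ≤ (NN d n + 1) * VV d := by
    have hpt : ∀ t, |dens b a t - 1| ≤ S + (Ioi (1 / 2 : ℝ)).indicator (fun _ => (1 : ℝ)) t := by
      intro t
      by_cases h1 : t ∈ Ioi (1 / 2 : ℝ)
      · rw [indicator_of_mem h1]
        linarith [(hb t).2.2]
      · rw [indicator_of_notMem h1, add_zero]
        have h2 : t ∈ Iic (1 / 2 : ℝ) := by
          rw [mem_Iic]; rw [mem_Ioi, not_lt] at h1; exact h1
        unfold dens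
        rw [indicator_of_mem h2]
        by_cases h3 : t ∈ Ioc (-b) b
        · rw [indicator_of_mem h3]
          have := har t
          rw [show (1 : ℝ) + a t - 1 = a t by ring]
          exact this
        · rw [indicator_of_notMem h3]
          simpa using hS0
    have hi2 : Integrable ((Ioi (1 / 2 : ℝ)).indicator (fun _ => (1 : ℝ))) (den d) :=
      (integrable_const 1).indicator measurableSet_Ioi
    have h2 : ∫ t, |dens b a t - 1| ∂(den d) ≤
        ∫ t, (S + (Ioi (1 / 2 : ℝ)).indicator (fun _ => (1 : ℝ)) t) ∂(den d) :=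
      integral_mono hgi ((integrable_const S).add hi2) hpt
    have h3 : ∫ t, (Ioi (1 / 2 : ℝ)).indicator (fun _ => (1 : ℝ)) t ∂(den d) = cst d * μ := by
      rw [integral_den, hμ]
      congr 1
      have e1 : ∀ t : ℝ, (Ioi (1 / 2 : ℝ)).indicator (fun _ => (1 : ℝ)) t * wt (d - 3) t =
          (Ioi (1 / 2 : ℝ)).indicator (wt (d - 3)) t := by
        intro t
        by_cases h : t ∈ Ioi (1 / 2 : ℝ)
        · rw [indicator_of_mem h, indicator_of_mem h, one_mul]
        · rw [indicator_of_notMem h, indicator_of_notMem h, zero_mul]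
      simp only [e1]
      rw [intervalIntegral.integral_of_le (by norm_num), setIntegral_indicator measurableSet_Ioi,
        intervalIntegral.integral_of_le (by norm_num)]
      congr 2
      ext t
      simp only [mem_inter_iff, mem_Ioc, mem_Ioi]
      constructor
      · rintro ⟨⟨h1, h2⟩, h3⟩; exact ⟨h3, h2⟩
      · rintro ⟨h1, h3⟩; exact ⟨⟨by linarith, h3⟩, h1⟩
    rw [integral_add (integrable_const S) hi2, h3, integral_const, probReal_univ, one_smul] at h2
    have h4 : 0 ≤ cst d * μ := by positivity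
    linarith
  refine ⟨dens b a, hgm, fun t => (hb t).1, fun t => (hb t).2.1.trans (by linarith),
    fun t ht => dens_of_gt hb2 a ht, fun t => (hb t).2.2, ?_, hvar, hL1, ?_, ?_⟩
  · have h1 := hmom 1 (by simp)
    simp only [eval_one, mul_one] at h1
    rw [h1, integral_den]
    simp only [one_mul]
    unfold cst
    exact inv_mul_cancel₀ (integral_wt_pos _).ne'
  · intro j hj
    have hwb := wt_nonneg (d - 3) b
    by_cases hjn : j ≤ n
    · rw [hmom (PP d j) ((natDegree_PP j).trans hjn), integral_PP_den hd3 hj, abs_zero]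
      positivity
    · push Not at hjn
      rw [integral_dens hb0 hb2 hac (PP d j).continuous]
      have e0 : (∫ t in (-1 : ℝ)..(1 / 2), (PP d j).eval t * wt (d - 3) t) +
          ∫ t in (1 / 2 : ℝ)..1, (PP d j).eval t * wt (d - 3) t = 0 := by
        have hPi : ∀ x y : ℝ, IntervalIntegrable (fun t => (PP d j).eval t * wt (d - 3) t) volume x y :=
          fun x y => ((PP d j).continuous.mul hw).intervalIntegrable x y
        rw [intervalIntegral.integral_add_adjacent_intervals (hPi _ _) (hPi _ _)]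
        have h := integral_PP_den hd3 (d := d) hj
        rw [integral_den] at h
        rcases mul_eq_zero.1 h with h | h
        · exact absurd h hcst.ne'
        · exact h
      have e1 : ∫ t in (-b)..b, a t * ((PP d j).eval t * wt (d - 3) t) =
          ∫ t in (-b)..b, (q.eval t * (PP d j).eval t) * wt (d - 3) t := by
        apply intervalIntegral.integral_congr
        intro t ht
        simp only [haq t ht]
        ring
      have e2 : ∫ t in (-1 : ℝ)..1, (q.eval t * (PP d j).eval t) * wt (d - 3) t = 0 := by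
        have h := int_mul_PP_zero hd3 (d := d) hjn hqn
        rw [integral_den] at h
        rcases mul_eq_zero.1 h with h | h
        · exact absurd h hcst.ne'
        · exact h
      have e3 := outer (D := d - 3) hb0 hb1 (F := fun t => q.eval t * (PP d j).eval t)
        (q.continuous.mul (PP d j).continuous) (S := S) (fun t ht => by
          rw [abs_mul]
          calc |q.eval t| * |(PP d j).eval t| ≤ S * 1 :=
                mul_le_mul (hqs t ht) (abs_PP_le_one hd4 j ht) (abs_nonneg _) hS0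
            _ = S := mul_one S)
      rw [e2, zero_sub, abs_neg] at e3
      have e4 := cap_part hd hn hjn
      have e5 : (∫ t in (-1 : ℝ)..(1 / 2), (PP d j).eval t * wt (d - 3) t) =
          -∫ t in (1 / 2 : ℝ)..1, (PP d j).eval t * wt (d - 3) t := by linarith
      rw [e1, e5, abs_mul, abs_of_pos hcst]
      set c₁ := ∫ t in (1 / 2 : ℝ)..1, (PP d j).eval t * wt (d - 3) t
      set c₂ := ∫ t in (-b)..b, (q.eval t * (PP d j).eval t) * wt (d - 3) t
      have e6 : |-c₁ + c₂| ≤ |c₁| + |c₂| := by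
        have := abs_add_le (-c₁) c₂
        rwa [abs_neg] at this
      calc cst d * |-c₁ + c₂| ≤ cst d * (|c₁| + 2 * S * wt (d - 3) b) :=
            mul_le_mul_of_nonneg_left (e6.trans (by linarith)) hcst.le
        _ = cst d * |c₁| + 2 * (cst d * S * wt (d - 3) b) := by ring
        _ ≤ VV d * (2 * (1 / 4) ^ (n / 2)) + 2 * (cst d * (NN d n * VV d) * wt (d - 3) b) := by
            gcongr
        _ = _ := by ring
  · intro j hj hjn
    rw [hmom (PP d j) ((natDegree_PP j).trans hjn), integral_PP_den hd3 hj]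

end Pool.Agent.Helper44.LLK
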