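import Pool.Agent.Helper44.LLK.NNum

/-!
The density for `k ≤ 2^(η d)` conditioned points, `η < log2 (2/√3)`.
-/

set_option autoImplicit false

open MeasureTheory Set Polynomial

namespace Pool.Agent.Helper44.LLK

open Pool.Agent.Helper47.KP
open Pool.Agent.Helper47.LB

/-- `-log √(3/4)` -/
lemma s_facts : Real.logb 2 (2 / √3) * Real.log 2 = -Real.log √(3 / 4) ∧ 1 / 8 ≤ -Real.log √(3 / 4) := by
  have h2 : Real.log 2 ≠ 0 := (Real.log_pos (by norm_num)).ne'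
  have hs3 : 0 < √(3 : ℝ) := Real.sqrt_pos.2 (by norm_num)
  have e : √(3 / 4 : ℝ) = (2 / √3)⁻¹ := by
    rw [Real.sqrt_div (by norm_num), inv_div]
    congr 1
    rw [show (4 : ℝ) = 2 ^ 2 by norm_num]
    exact Real.sqrt_sq (by norm_num)
  constructor
  · rw [Real.logb, div_mul_cancel₀ _ h2, e, Real.log_inv, neg_neg]
  · rw [Real.log_sqrt (by norm_num)]
    have := Real.log_le_sub_one_of_pos (show (0 : ℝ) < 3 / 4 by norm_num)
    linarith

/-- the powers of `1/4` -/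
lemma quarter {n : ℕ} {x : ℝ} (h : x - 1 ≤ n) : ((1 : ℝ) / 4) ^ (n / 2) ≤ 4 * Real.exp (-(Real.log 2) * x) := by
  have h1 : ((1 : ℝ) / 4) ^ (n / 2) = (1 / 2) ^ (2 * (n / 2)) := by
    rw [pow_mul]; norm_num
  have h2 : x - 2 ≤ ((2 * (n / 2) : ℕ) : ℝ) := by
    have : (n : ℝ) - 1 ≤ ((2 * (n / 2) : ℕ) : ℝ) := by
      have h3 : n ≤ 2 * (n / 2) + 1 := by omega
      have h4 : (n : ℝ) ≤ ((2 * (n / 2) + 1 : ℕ) : ℝ) := by exact_mod_cast h3
      push_cast at h4 ⊢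
      linarith
    linarith
  have hl : 0 < Real.log 2 := Real.log_pos (by norm_num)
  rw [h1, ← Real.rpow_natCast, Real.rpow_def_of_pos (by norm_num)]
  have e1 : Real.log (1 / 2) = -Real.log 2 := by rw [one_div, Real.log_inv]
  have e2 : (4 : ℝ) * Real.exp (-(Real.log 2) * x) = Real.exp (-(Real.log 2) * (x - 2)) := by
    rw [show -(Real.log 2) * (x - 2) = Real.log 2 + Real.log 2 + -(Real.log 2) * x by ring, Real.exp_add,
      Real.exp_add, Real.exp_log (by norm_num)]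
    norm_num
  rw [e1, e2]
  apply Real.exp_le_exp.2
  nlinarith

/-- the size of `(N + 1) V` -/
lemma sup_num {N V s ε a y x : ℝ} (hx0 : 0 ≤ x) (hV0 : 0 ≤ V) (hε : 0 ≤ ε)
    (hN : N ≤ Real.exp (ε * x)) (hV : V ≤ 4 * x * Real.exp (-s * x)) (ha : 8 * x ≤ Real.exp (a * x))
    (h : a - (s - ε) ≤ -y) : (N + 1) * V ≤ Real.exp (-y * x) := by
  have h1 : N + 1 ≤ 2 * Real.exp (ε * x) := by
    have := Real.add_one_le_exp (ε * x)
    have h2 : 0 ≤ ε * x := by positivity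
    linarith
  calc (N + 1) * V ≤ (2 * Real.exp (ε * x)) * (4 * x * Real.exp (-s * x)) :=
        mul_le_mul h1 hV hV0 (by positivity)
    _ = 8 * x * (Real.exp (ε * x) * Real.exp (-s * x)) := by ring
    _ ≤ Real.exp (a * x) * (Real.exp (ε * x) * Real.exp (-s * x)) := by gcongr
    _ = Real.exp ((a - (s - ε)) * x) := by rw [← Real.exp_add, ← Real.exp_add]; congr 1; ring
    _ ≤ _ := Real.exp_le_exp.2 (mul_le_mul_of_nonneg_right h hx0)

/-- the size of the mass outside -/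
lemma W_num {d : ℕ} [NeZero d] (hd : 4 ≤ d) {N ε : ℝ} (hN0 : 0 ≤ N) (hε : ε ≤ 1 / 100)
    (hN : N ≤ Real.exp (ε * d)) (k3 : 16 * (d : ℝ) ≤ Real.exp (1 / 100 * d)) :
    4 * (cst d * N * wt (d - 3) (2 / 5)) ≤ Real.exp (-(6 / 100) * d) := by
  have h1 : cst d ≤ 2 * d := by
    refine (cst_le (by omega)).trans ?_
    have h2 : ((d - 3 : ℕ) : ℝ) ≤ d := by exact_mod_cast Nat.sub_le d 3
    have h3 : (4 : ℝ) ≤ d := by exact_mod_cast hd
    rw [Real.sqrt_le_left (by positivity)]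
    nlinarith
  have h2 := wt_25 (d := d) (by omega)
  have h3 := cst_pos d
  have h4 := wt_nonneg (d - 3) (2 / 5)
  calc 4 * (cst d * N * wt (d - 3) (2 / 5))
      ≤ 4 * ((2 * d) * Real.exp (ε * d) * (2 * Real.exp (-(2 / 25) * d))) := by gcongr
    _ = 16 * d * (Real.exp (ε * d) * Real.exp (-(2 / 25) * d)) := by ring
    _ ≤ Real.exp (1 / 100 * d) * (Real.exp (1 / 100 * d) * Real.exp (-(2 / 25) * d)) := by gcongr
    _ = Real.exp (-(6 / 100) * d) := by rw [← Real.exp_add, ← Real.exp_add]; congr 1; ring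

/-- the exponent of the coefficients -/
lemma coef_num {β W x : ℝ} {n : ℕ} (hx0 : 0 ≤ x) (hβ0 : 0 < β) (hβ1 : β ≤ 1 / 8)
    (k4 : 16 ≤ Real.exp (3 / 4 * β * Real.log 2 * x)) (hn2 : β * x - 1 ≤ n)
    (hW4 : 4 * W ≤ Real.exp (-(6 / 100) * x)) :
    2 * (1 / 4) ^ (n / 2) + 2 * W ≤ (2 : ℝ) ^ (-(β / 4) * x) := by
  have hl2 : 0 < Real.log 2 := Real.log_pos (by norm_num)
  have hl21 : Real.log 2 < 0.7 := by linarith [Real.log_two_lt_d9]
  have h1 := quarter hn2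
  have h2e : (2 : ℝ) ^ (-(β / 4) * x) = Real.exp (-(β / 4 * Real.log 2) * x) := by
    rw [Real.rpow_def_of_pos (by norm_num)]; congr 1; ring
  rw [h2e]
  have h2 : 2 * (4 * Real.exp (-(Real.log 2) * (β * x))) ≤ 1 / 2 * Real.exp (-(β / 4 * Real.log 2) * x) := by
    have h3 : 16 * Real.exp (-(Real.log 2) * (β * x)) ≤
        Real.exp (3 / 4 * β * Real.log 2 * x) * Real.exp (-(Real.log 2) * (β * x)) := by
      gcongr
    rw [← Real.exp_add] at h3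
    have e : 3 / 4 * β * Real.log 2 * x + -(Real.log 2) * (β * x) = -(β / 4 * Real.log 2) * x := by ring
    rw [e] at h3
    linarith
  have h4 : 2 * W ≤ 1 / 2 * Real.exp (-(β / 4 * Real.log 2) * x) := by
    have h5 : Real.exp (-(6 / 100) * x) ≤ Real.exp (-(β / 4 * Real.log 2) * x) := by
      apply Real.exp_le_exp.2
      apply mul_le_mul_of_nonneg_right _ hx0
      have : β / 4 * Real.log 2 ≤ 1 / 32 * 0.7 := mul_le_mul (by linarith) hl21.le hl2.le (by norm_num)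
      linarith
    linarith
  linarith

theorem exists_densityW {η : ℝ} (hη : η < Real.logb 2 (2 / √3)) :
    ∃ β e₁ : ℝ, 0 < β ∧ β ≤ 1 / 4 ∧ 0 < e₁ ∧ ∃ d₀ : ℕ, 8 ≤ d₀ ∧ ∀ (d : ℕ) [NeZero d], d₀ ≤ d →
    ∃ n : ℕ, β * d ≤ n ∧ (n : ℝ) ≤ d / 4 ∧ ∃ g : ℝ → ℝ, Measurable g ∧ (∀ t, 0 ≤ g t) ∧
      (∀ t, g t ≤ 1 + 2 ^ (-η * d)) ∧ (∀ t, 1 / 2 < t → g t = 0) ∧ (∀ t, |g t - 1| ≤ 1) ∧
      ∫ t, g t ∂(den d) = 1 ∧ ∫ t, (g t - 1) ^ 2 ∂(den d) ≤ VV d ∧
      ∫ t, |g t - 1| ∂(den d) ≤ 2 ^ (-η * d) ∧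
      (∀ j, 1 ≤ j → |∫ t, g t * (PP d j).eval t ∂(den d)| ≤ VV d * 2 ^ (-e₁ * d)) ∧
      ∀ j, 1 ≤ j → j ≤ n → ∫ t, g t * (PP d j).eval t ∂(den d) = 0 := by
  obtain ⟨hs1, hs2⟩ := s_facts
  set s := -Real.log √(3 / 4) with hs
  have hl2 : 0 < Real.log 2 := Real.log_pos (by norm_num)
  have hl21 : Real.log 2 < 0.7 := by linarith [Real.log_two_lt_d9]
  have hηs : η * Real.log 2 < s := by
    rw [← hs1]; exact mul_lt_mul_of_pos_right hη hl2
  set δ := s - η * Real.log 2 with hδ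
  have hδ0 : 0 < δ := by linarith
  set ε := min (δ / 2) (1 / 100) with hε
  have hε0 : 0 < ε := by positivity
  have hε1 : ε ≤ δ / 2 := min_le_left _ _
  have hε2 : ε ≤ 1 / 100 := min_le_right _ _
  obtain ⟨β, hβ0, hβ1, d₁, hNN⟩ := NN_exp hε0
  obtain ⟨d₂, hd₂⟩ := exists_nat_ge (2 / β)
  obtain ⟨d₃, hd₃⟩ := exists_nat_ge (2 * 16 / (1 / 100) ^ 2 : ℝ)
  obtain ⟨d₄, hd₄⟩ := exists_nat_ge (2 * 16 / (3 / 4 * β * Real.log 2) ^ 2)
  obtain ⟨d₅, hd₅⟩ := exists_nat_ge (2 * 8 / (δ / 2) ^ 2)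
  refine ⟨β / 2, β / 4, by positivity, by linarith, by positivity,
    max 8 (max (max d₁ d₂) (max d₃ (max d₄ d₅))), le_max_left _ _, fun d _ hd => ?_⟩
  simp only [max_le_iff] at hd
  obtain ⟨hd8, ⟨hdd1, hdd2⟩, hdd3, hdd4, hdd5⟩ := hd
  have hd8' : (8 : ℝ) ≤ d := by exact_mod_cast hd8
  have hx0 : (0 : ℝ) ≤ d := by linarith
  have hx2 : 2 / β ≤ (d : ℝ) := hd₂.trans (by exact_mod_cast hdd2)
  have k3 : 16 * (d : ℝ) ≤ Real.exp (1 / 100 * d) :=
    lin_le_exp (by norm_num) hx0 (hd₃.trans (by exact_mod_cast hdd3))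
  have k4 : 16 * (d : ℝ) ≤ Real.exp (3 / 4 * β * Real.log 2 * d) :=
    lin_le_exp (by positivity) hx0 (hd₄.trans (by exact_mod_cast hdd4))
  have k5 : 8 * (d : ℝ) ≤ Real.exp (δ / 2 * d) :=
    lin_le_exp (by positivity) hx0 (hd₅.trans (by exact_mod_cast hdd5))
  -- the degree
  set n := ⌊β * d⌋₊ with hn
  have hn1 : (n : ℝ) ≤ β * d := Nat.floor_le (by positivity)
  have hn2 : β * d - 1 ≤ n := (Nat.sub_one_lt_floor _).le
  have hn8 : (n : ℝ) ≤ d / 8 := hn1.trans (by nlinarith)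
  have hβd : 2 ≤ β * d := by
    rw [div_le_iff₀ hβ0] at hx2; linarith
  have hn4 : 4 * n ≤ d - 3 := by
    have h1 : 8 * n ≤ d := by
      have : 8 * (n : ℝ) ≤ d := by linarith
      exact_mod_cast this
    omega
  have hN0 := NN_nonneg (d := d) (by omega) n
  have hNe := hNN d hdd1 n hn1
  have hV0 := VV_pos (d := d) (by omega)
  have hVe := VV_le (d := d) (by omega)
  have hexp : ∀ x : ℝ, 0 < Real.exp x := Real.exp_pos
  -- the sup
  have hs' : Real.log √(3 / 4) = -s := by rw [hs]; ring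
  rw [hs'] at hVe
  have h2η : (2 : ℝ) ^ (-η * d) = Real.exp (-(η * Real.log 2) * d) := by
    rw [Real.rpow_def_of_pos (by norm_num)]; congr 1; ring
  have hL1 : (NN d n + 1) * VV d ≤ 2 ^ (-η * d) := by
    rw [h2η]
    exact sup_num hx0 hV0.le hε0.le hNe hVe k5 (by rw [hδ] at hε1 ⊢; linarith)
  have hle1 : NN d n * VV d ≤ (NN d n + 1) * VV d := by
    rw [add_mul, one_mul]; linarith
  have hS1 : NN d n * VV d ≤ 1 := by
    refine hle1.trans ?_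
    have := sup_num (y := 0) (a := 1 / 100) hx0 hV0.le hε0.le hNe hVe (by linarith) (by linarith)
    simpa using this
  -- the weight
  have hW4 := W_num (d := d) (by omega) hN0 hε2 hNe k3
  have hW1 : 4 * (cst d * NN d n * wt (d - 3) (2 / 5)) ≤ 1 := by
    refine hW4.trans ?_
    rw [Real.exp_le_one_iff]
    linarith
  obtain ⟨g, hgm, hg0, hgs, hgz, hg1, hgI, hgv, hgL, hgj, hgn⟩ :=
    density_core hd8 hn4 (b := 2 / 5) (by norm_num) (by norm_num) hW1 hS1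
  refine ⟨n, by linarith, by linarith, g, hgm, hg0, fun t => (hgs t).trans ?_, hgz, hg1, hgI, hgv,
    hgL.trans hL1, fun j hj => (hgj j hj).trans ?_, hgn⟩
  · linarith
  · exact mul_le_mul_of_nonneg_left (coef_num hx0 hβ0 hβ1 (by linarith) hn2 hW4) hV0.le

end Pool.Agent.Helper44.LLK
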