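import Pool.Agent.Helper44.LLK.Dens

/-!
The numbers of the density: `NN d n ≤ exp (ε d)` for `n ≤ β d`, and the density in its final form.
-/

set_option autoImplicit false

open MeasureTheory Set Polynomial

namespace Pool.Agent.Helper44.LLK

open Pool.Agent.Helper47.KP
open Pool.Agent.Helper47.LB

variable {d : ℕ}

lemma lin_le_exp {K c x : ℝ} (hc : 0 < c) (hx0 : 0 ≤ x) (hx : 2 * K / c ^ 2 ≤ x) :
    K * x ≤ Real.exp (c * x) := by
  have h1 := Real.quadratic_le_exp_of_nonneg (x := c * x) (by positivity)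
  rw [div_le_iff₀ (by positivity)] at hx
  have h2 : 2 * K * x ≤ x * c ^ 2 * x := mul_le_mul_of_nonneg_right hx hx0
  nlinarith [mul_nonneg hc.le hx0]

lemma choose_le (N n : ℕ) {x : ℝ} (hx : 0 < x) : (N.choose n : ℝ) ≤ Real.exp (x * N) * (x⁻¹) ^ n := by
  by_cases h : n ≤ N
  · have h1 : x ^ n * (N.choose n : ℝ) ≤ (x + 1) ^ N := by
      rw [add_pow]
      have h2 := Finset.single_le_sum (s := Finset.range (N + 1))
        (f := fun m => x ^ m * 1 ^ (N - m) * (N.choose m : ℝ)) (fun i _ => by positivity)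
        (Finset.mem_range.2 (by omega : n < N + 1))
      simp only [one_pow, mul_one] at h2 ⊢
      exact h2
    have h3 : (x + 1) ^ N ≤ Real.exp (x * N) := by
      rw [mul_comm x, Real.exp_nat_mul]
      exact pow_le_pow_left₀ (by positivity) (Real.add_one_le_exp x) N
    have h4 := h1.trans h3
    calc (N.choose n : ℝ) = (x ^ n * (N.choose n : ℝ)) * (x⁻¹) ^ n := by
          rw [inv_pow]; field_simp
      _ ≤ _ := mul_le_mul_of_nonneg_right h4 (by positivity)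
  · rw [Nat.choose_eq_zero_of_lt (by omega)]
    push_cast
    positivity

lemma NN_le [NeZero d] (hd : 3 ≤ d) {n : ℕ} (hn : 2 * n + 2 ≤ d) :
    NN d n ≤ 2 * ((n : ℝ) + 1) * (Nat.choose (n + (d - 3)) n : ℝ) := by
  obtain ⟨x⟩ := exists_point (d := d)
  have hd' : (3 : ℝ) ≤ d := by exact_mod_cast hd
  have hn' : 2 * (n : ℝ) + 2 ≤ d := by exact_mod_cast hn
  have h : ∀ j ∈ Finset.range (n + 1), (nrm d j)⁻¹ ≤ 2 * (Nat.choose (n + (d - 3)) n : ℝ) := by
    intro j hj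
    rw [Finset.mem_range] at hj
    have hjn : (j : ℝ) ≤ n := by exact_mod_cast (by omega : j ≤ n)
    have h1 := zon_norm hd x j
    rw [zon_eq_nrm hd x] at h1
    have hp := nrm_pos hd (d := d) j
    have h2 : (Nat.choose (j + (d - 3)) j : ℝ) ≤ (Nat.choose (n + (d - 3)) n : ℝ) := by
      rw [Nat.choose_symm_add, Nat.choose_symm_add]
      exact_mod_cast Nat.choose_le_choose _ (by omega)
    set c := (Nat.choose (j + (d - 3)) j : ℝ)
    set e := (Nat.choose (n + (d - 3)) n : ℝ)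
    have hc0 : 0 ≤ c := Nat.cast_nonneg _
    have h3 : (nrm d j)⁻¹ = (2 * (j : ℝ) + d - 2) / (d - 2) * c := by
      have : (d : ℝ) - 2 ≠ 0 := by linarith
      field_simp
      linarith
    rw [h3]
    have h4 : (2 * (j : ℝ) + d - 2) / (d - 2) ≤ 2 := by
      rw [div_le_iff₀ (by linarith)]
      linarith
    calc _ ≤ 2 * c := mul_le_mul_of_nonneg_right h4 hc0
      _ ≤ 2 * e := by linarith
  unfold NN
  refine (Finset.sum_le_card_nsmul _ _ _ h).trans (le_of_eq ?_)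
  rw [Finset.card_range, nsmul_eq_mul]
  push_cast
  ring

/-- the degrees of freedom -/
theorem NN_exp {ε : ℝ} (hε : 0 < ε) : ∃ β : ℝ, 0 < β ∧ β ≤ 1 / 8 ∧ ∃ d₀ : ℕ, ∀ (d : ℕ) [NeZero d], d₀ ≤ d →
    ∀ n : ℕ, (n : ℝ) ≤ β * d → NN d n ≤ Real.exp (ε * d) := by
  set x := min (ε / 8) (1 / 2) with hx
  have hx0 : 0 < x := by positivity
  have hx1 : x ≤ 1 / 2 := min_le_right _ _
  have hx2 : x ≤ ε / 8 := min_le_left _ _
  have hl : 0 < Real.log x⁻¹ := Real.log_pos (by rw [one_lt_inv₀ hx0]; linarith)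
  set β := min (1 / 8) (ε / 4 / Real.log x⁻¹) with hβ
  have hβ0 : 0 < β := by positivity
  have hβ1 : β ≤ 1 / 8 := min_le_left _ _
  have hβ2 : β * Real.log x⁻¹ ≤ ε / 4 := by
    rw [← le_div_iff₀ hl]; exact min_le_right _ _
  obtain ⟨d₀, hd₀⟩ := exists_nat_ge (2 * 4 / (ε / 2) ^ 2)
  refine ⟨β, hβ0, hβ1, max d₀ 8, fun d _ hd n hn => ?_⟩
  have hd1 : d₀ ≤ d := (le_max_left _ _).trans hd
  have hd8 : 8 ≤ d := (le_max_right _ _).trans hd
  have hd8' : (8 : ℝ) ≤ d := by exact_mod_cast hd8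
  have hd1' : (d₀ : ℝ) ≤ d := by exact_mod_cast hd1
  have hn8 : (n : ℝ) ≤ d / 8 := hn.trans (by nlinarith)
  have hnd : 2 * n + 2 ≤ d := by
    have : 2 * (n : ℝ) + 2 ≤ d := by linarith
    exact_mod_cast this
  refine (NN_le (by omega) hnd).trans ?_
  have h1 := choose_le (n + (d - 3)) n hx0
  have h2 : x * ((n + (d - 3) : ℕ) : ℝ) ≤ ε / 4 * d := by
    have h3 : ((n + (d - 3) : ℕ) : ℝ) ≤ 2 * d := by
      exact_mod_cast (by omega : n + (d - 3) ≤ 2 * d)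
    calc x * ((n + (d - 3) : ℕ) : ℝ) ≤ (ε / 8) * (2 * d) := by gcongr
      _ = ε / 4 * d := by ring
  have h3 : (x⁻¹) ^ n ≤ Real.exp (ε / 4 * d) := by
    rw [← Real.rpow_natCast, Real.rpow_def_of_pos (inv_pos.2 hx0)]
    apply Real.exp_le_exp.2
    calc Real.log x⁻¹ * (n : ℝ) ≤ Real.log x⁻¹ * (β * d) := by gcongr
      _ = (β * Real.log x⁻¹) * d := by ring
      _ ≤ ε / 4 * d := by gcongr
  have h4 : (Nat.choose (n + (d - 3)) n : ℝ) ≤ Real.exp (ε / 2 * d) := by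
    refine h1.trans ?_
    calc _ ≤ Real.exp (ε / 4 * d) * Real.exp (ε / 4 * d) :=
          mul_le_mul (Real.exp_le_exp.2 h2) h3 (by positivity) (Real.exp_pos _).le
      _ = Real.exp (ε / 2 * d) := by rw [← Real.exp_add]; congr 1; ring
  have h5 : 2 * ((n : ℝ) + 1) ≤ 4 * d := by linarith
  have h6 : 4 * (d : ℝ) ≤ Real.exp (ε / 2 * d) :=
    lin_le_exp (by positivity) (by linarith) (hd₀.trans hd1')
  calc 2 * ((n : ℝ) + 1) * (Nat.choose (n + (d - 3)) n : ℝ)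
      ≤ Real.exp (ε / 2 * d) * Real.exp (ε / 2 * d) :=
        mul_le_mul (h5.trans h6) h4 (by positivity) (Real.exp_pos _).le
    _ = Real.exp (ε * d) := by rw [← Real.exp_add]; congr 1; ring

/-- the variance -/
lemma VV_le (hd : 4 ≤ d) : VV d ≤ 4 * d * Real.exp (Real.log √(3 / 4) * d) := by
  obtain ⟨D, rfl⟩ : ∃ D, d = D + 3 := ⟨d - 3, by omega⟩
  unfold VV
  rw [show D + 3 - 3 = D by omega]
  have hD : (0 : ℝ) ≤ D := Nat.cast_nonneg D
  have hs : 0 < √(3 / 4 : ℝ) := Real.sqrt_pos.2 (by norm_num)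
  have e1 : Real.exp (Real.log √(3 / 4) * ((D + 3 : ℕ) : ℝ)) = √(3 / 4) ^ (D + 3) := by
    rw [← Real.rpow_natCast, Real.rpow_def_of_pos hs]
  rw [e1]
  have h1 : √(2 * (D : ℝ)) ≤ 2 * ((D : ℝ) + 3) := by
    rw [Real.sqrt_le_left (by linarith)]
    nlinarith
  have h2 : √(3 / 4 : ℝ) ^ D ≤ 2 * √(3 / 4) ^ (D + 3) := by
    have h3 : (1 : ℝ) ≤ 2 * √(3 / 4) ^ 3 := by
      have h4 : √(3 / 4 : ℝ) ^ 3 = 3 / 4 * √(3 / 4) := by
        rw [pow_succ, Real.sq_sqrt (by norm_num)]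
      have h5 : (2 / 3 : ℝ) ≤ √(3 / 4) := by
        apply Real.le_sqrt_of_sq_le; norm_num
      rw [h4]; linarith
    rw [pow_add]
    have h6 : 0 ≤ √(3 / 4 : ℝ) ^ D := by positivity
    nlinarith
  calc √(2 * (D : ℝ)) * √(3 / 4) ^ D ≤ (2 * ((D : ℝ) + 3)) * (2 * √(3 / 4) ^ (D + 3)) := by gcongr
    _ = _ := by push_cast; ring

/-- the weight at `2/5` -/
lemma wt_25 (hd : 4 ≤ d) : wt (d - 3) (2 / 5) ≤ 2 * Real.exp (-(2 / 25) * d) := by
  obtain ⟨D, rfl⟩ : ∃ D, d = D + 3 := ⟨d - 3, by omega⟩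
  unfold wt
  rw [show D + 3 - 3 = D by omega]
  have h1 : √(1 - (2 / 5 : ℝ) ^ 2) ≤ Real.exp (-(2 / 25)) := by
    rw [Real.sqrt_le_left (Real.exp_pos _).le, ← Real.exp_nat_mul]
    have := Real.add_one_le_exp (((2 : ℕ) : ℝ) * (-(2 / 25)))
    push_cast at this ⊢
    linarith
  have h2 : Real.exp (-(2 / 25) * ((D + 3 : ℕ) : ℝ)) = Real.exp (-(2 / 25)) ^ D * Real.exp (-(6 / 25)) := by
    rw [← Real.exp_nat_mul, ← Real.exp_add]
    congr 1
    push_cast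
    ring
  have h3 : (1 : ℝ) ≤ 2 * Real.exp (-(6 / 25)) := by
    have := Real.add_one_le_exp (-(6 / 25 : ℝ))
    linarith
  rw [h2]
  have h4 := pow_le_pow_left₀ (Real.sqrt_nonneg _) h1 D
  have h5 : 0 ≤ Real.exp (-(2 / 25)) ^ D := by positivity
  nlinarith

end Pool.Agent.Helper44.LLK
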