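import Pool.Agent.Helper34.KU.Cap
import Pool.Agent.Helper86.LP.Dens3

/-!
The inequality of Nikolskii type for the law of one coordinate of the sphere, on the whole interval
`[-1, 1]`: `f(t)² ≤ NN d n ∫ f² dden` for polynomials `f` of degree at most `n`, and the size of the
polynomial `q` of Helper47/LB/Dual.lean for small degrees.
-/

set_option autoImplicit false

open MeasureTheory Set Polynomial

namespace Pool.Agent.Helper44.LLK

open Pool.Agent.Helper47.KP
open Pool.Agent.Helper47.LB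
open Pool.Agent.Helper86.LP (integrable_den abs_PP_pow_le)

variable {d : ℕ}

/-- `f` is a combination of `P_0, ..., P_n` -/
def Ex (d n : ℕ) (f : ℝ[X]) : Prop := ∃ c : ℕ → ℝ, f = ∑ j ∈ Finset.range (n + 1), C (c j) * PP d j

lemma Ex.add {n : ℕ} {f g : ℝ[X]} (hf : Ex d n f) (hg : Ex d n g) : Ex d n (f + g) := by
  obtain ⟨c, rfl⟩ := hf
  obtain ⟨e, rfl⟩ := hg
  exact ⟨fun j => c j + e j, by
    rw [← Finset.sum_add_distrib]; exact Finset.sum_congr rfl fun j _ => by rw [C_add]; ring⟩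

lemma Ex.smul (a : ℝ) {n : ℕ} {f : ℝ[X]} (hf : Ex d n f) : Ex d n (C a * f) := by
  obtain ⟨c, rfl⟩ := hf
  exact ⟨fun j => a * c j, by
    rw [Finset.mul_sum]; exact Finset.sum_congr rfl fun j _ => by rw [C_mul]; ring⟩

lemma Ex.zero {n : ℕ} : Ex d n 0 := ⟨fun _ => 0, by simp⟩

lemma Ex.of_PP {n j : ℕ} (hj : j ≤ n) : Ex d n (PP d j) :=
  ⟨fun i => if i = j then 1 else 0, by
    rw [Finset.sum_eq_single j]
    · simp
    · intro i _ hi; simp [hi]
    · intro h; exact absurd (Finset.mem_range.2 (by omega)) h⟩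

lemma X_mul_PP (hd : 3 ≤ d) (j : ℕ) : X * PP d (j + 1) =
    C (((j : ℝ) + d - 1) / (2 * j + d)) * PP d (j + 2) + C (((j : ℝ) + 1) / (2 * j + d)) * PP d j := by
  have hd' : (3 : ℝ) ≤ d := by exact_mod_cast hd
  have hj : (0 : ℝ) ≤ j := Nat.cast_nonneg j
  have h1 : (j : ℝ) + d - 1 ≠ 0 := by
    have : 0 < (j : ℝ) + d - 1 := by linarith
    exact this.ne'
  have h2 : 2 * (j : ℝ) + d ≠ 0 := by
    have : 0 < 2 * (j : ℝ) + d := by linarith
    exact this.ne'
  have e1 : ((j : ℝ) + d - 1) / (2 * j + d) * ((2 * (j : ℝ) + d) / (j + d - 1)) = 1 := by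
    field_simp
  have e2 : ((j : ℝ) + d - 1) / (2 * j + d) * (((j : ℝ) + 1) / (j + d - 1)) =
      ((j : ℝ) + 1) / (2 * j + d) := by
    field_simp
  have h3 : C (((j : ℝ) + d - 1) / (2 * j + d)) * PP d (j + 2) =
      X * PP d (j + 1) - C (((j : ℝ) + 1) / (2 * j + d)) * PP d j := by
    rw [PP_succ, mul_sub, ← mul_assoc (C _) (C _) (X * PP d (j + 1)), ← C_mul, e1, C_1, one_mul,
      ← mul_assoc (C _) (C _) (PP d j), ← C_mul, e2]
  rw [h3]
  ring

lemma Ex.X_mul (hd : 3 ≤ d) {n : ℕ} {f : ℝ[X]} (hf : Ex d n f) : Ex d (n + 1) (X * f) := by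
  obtain ⟨c, rfl⟩ := hf
  rw [Finset.mul_sum]
  refine Finset.sum_induction _ (Ex d (n + 1)) (fun _ _ => Ex.add) Ex.zero fun j hj => ?_
  rw [Finset.mem_range] at hj
  rw [show X * (C (c j) * PP d j) = C (c j) * (X * PP d j) by ring]
  refine Ex.smul _ ?_
  rcases j with _ | j
  · rw [PP_zero, mul_one]
    have : (X : ℝ[X]) = PP d 1 := PP_one.symm
    rw [this]
    exact Ex.of_PP (by omega)
  · rw [X_mul_PP hd]
    exact (Ex.smul _ (Ex.of_PP (by omega))).add (Ex.smul _ (Ex.of_PP (by omega)))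

theorem ex_of_natDegree (hd : 3 ≤ d) (n : ℕ) : ∀ f : ℝ[X], f.natDegree ≤ n → Ex d n f := by
  induction n with
  | zero =>
    intro f hf
    rw [eq_C_of_natDegree_le_zero hf]
    have := Ex.smul (d := d) (f.coeff 0) (Ex.of_PP (d := d) (n := 0) (j := 0) le_rfl)
    rwa [PP_zero, mul_one] at this
  | succ n ih =>
    intro f hf
    have h1 : f = X * divX f + C (f.coeff 0) * PP d 0 := by
      rw [PP_zero, mul_one, mul_comm X]
      exact (divX_mul_X_add f).symm
    rw [h1]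
    refine (Ex.X_mul hd (ih _ ?_)).add (Ex.smul _ (Ex.of_PP (by omega)))
    rw [natDegree_divX_eq_natDegree_tsub_one]
    omega

lemma int_PP_PP [NeZero d] (hd : 3 ≤ d) (i j : ℕ) :
    ∫ t, (PP d i).eval t * (PP d j).eval t ∂(den d) = if i = j then nrm d j else 0 := by
  obtain ⟨x⟩ := exists_point (d := d)
  have h : ∫ t, (PP d i).eval t * (PP d j).eval t ∂(den d) = zon x (PP d i * PP d j) := by
    rw [zon, ← int_zonal_den hd x (f := fun t => (PP d i).eval t * (PP d j).eval t)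
      ((PP d i).continuous.mul (PP d j).continuous).measurable]
    simp only [eval_mul]
  rw [h]
  split_ifs with hij
  · rw [hij, zon_eq_nrm hd]
  · exact zon_orth hd hij x

lemma int_comb_PP [NeZero d] (hd : 3 ≤ d) (c : ℕ → ℝ) (n j : ℕ) :
    ∫ t, (∑ i ∈ Finset.range (n + 1), C (c i) * PP d i).eval t * (PP d j).eval t ∂(den d) =
      if j ≤ n then c j * nrm d j else 0 := by
  have h : ∀ t : ℝ, (∑ i ∈ Finset.range (n + 1), C (c i) * PP d i).eval t * (PP d j).eval t =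
      ∑ i ∈ Finset.range (n + 1), c i * ((PP d i).eval t * (PP d j).eval t) := by
    intro t
    rw [eval_finsetSum, Finset.sum_mul]
    exact Finset.sum_congr rfl fun i _ => by rw [eval_mul, eval_C]; ring
  simp only [h]
  have hi : ∀ i ∈ Finset.range (n + 1), Integrable
      (fun t => c i * ((PP d i).eval t * (PP d j).eval t)) (den d) := fun i _ =>
    (integrable_den (f := fun t => (PP d i).eval t * (PP d j).eval t)
      ((PP d i).continuous.mul (PP d j).continuous) d).const_mul _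
  rw [integral_finsetSum _ hi]
  simp only [integral_const_mul, int_PP_PP hd]
  split_ifs with hj
  · rw [Finset.sum_eq_single j]
    · simp
    · intro i _ hi; simp [hi]
    · intro h; exact absurd (Finset.mem_range.2 (by omega)) h
  · refine Finset.sum_eq_zero fun i hi => ?_
    rw [Finset.mem_range] at hi
    rw [if_neg (by omega), mul_zero]

/-- orthogonality to lower degrees -/
lemma int_mul_PP_zero [NeZero d] (hd : 3 ≤ d) {n j : ℕ} (hj : n < j) {f : ℝ[X]} (hf : f.natDegree ≤ n) :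
    ∫ t, f.eval t * (PP d j).eval t ∂(den d) = 0 := by
  obtain ⟨c, rfl⟩ := ex_of_natDegree hd n f hf
  rw [int_comb_PP hd, if_neg (by omega)]

lemma int_sq [NeZero d] (hd : 3 ≤ d) (c : ℕ → ℝ) (n : ℕ) :
    ∫ t, (∑ i ∈ Finset.range (n + 1), C (c i) * PP d i).eval t ^ 2 ∂(den d) =
      ∑ i ∈ Finset.range (n + 1), c i ^ 2 * nrm d i := by
  set f := ∑ i ∈ Finset.range (n + 1), C (c i) * PP d i with hf
  have h : ∀ t : ℝ, f.eval t ^ 2 = ∑ i ∈ Finset.range (n + 1), c i * (f.eval t * (PP d i).eval t) := by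
    intro t
    rw [sq]
    nth_rewrite 2 [hf]
    rw [eval_finsetSum, Finset.mul_sum]
    exact Finset.sum_congr rfl fun i _ => by rw [eval_mul, eval_C]; ring
  simp only [h]
  have hi : ∀ i ∈ Finset.range (n + 1), Integrable
      (fun t => c i * (f.eval t * (PP d i).eval t)) (den d) := fun i _ =>
    (integrable_den (f := fun t => f.eval t * (PP d i).eval t)
      (f.continuous.mul (PP d i).continuous) d).const_mul _
  rw [integral_finsetSum _ hi]
  refine Finset.sum_congr rfl fun i hi => ?_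
  rw [Finset.mem_range] at hi
  rw [integral_const_mul, hf, int_comb_PP hd, if_pos (by omega)]
  ring

/-- the number of the degrees of freedom -/
noncomputable def NN (d n : ℕ) : ℝ := ∑ j ∈ Finset.range (n + 1), (nrm d j)⁻¹

lemma abs_PP_le_one (hd : 4 ≤ d) (j : ℕ) {t : ℝ} (ht : t ∈ Icc (-1 : ℝ) 1) : |(PP d j).eval t| ≤ 1 := by
  obtain ⟨D, rfl⟩ : ∃ D, d = D + 4 := ⟨d - 4, by omega⟩
  have h := abs_PP_pow_le D (m := j) (s := 1) (M := 0) (by omega) ht
  rw [pow_one] at h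
  refine h.trans (le_of_eq ?_)
  have hprob := Pool.Agent.Helper86.LP.den_prob (d := D + 3) (by omega)
  simp

/-- the inequality of Nikolskii type -/
theorem sup_sq [NeZero d] (hd : 4 ≤ d) {n : ℕ} {f : ℝ[X]} (hf : f.natDegree ≤ n) {t : ℝ}
    (ht : t ∈ Icc (-1 : ℝ) 1) : f.eval t ^ 2 ≤ NN d n * ∫ s, f.eval s ^ 2 ∂(den d) := by
  have hd3 : 3 ≤ d := by omega
  obtain ⟨c, rfl⟩ := ex_of_natDegree hd3 n f hf
  rw [int_sq hd3, NN]
  have h1 : |(∑ i ∈ Finset.range (n + 1), C (c i) * PP d i).eval t| ≤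
      ∑ i ∈ Finset.range (n + 1), |c i| := by
    rw [eval_finsetSum]
    refine (Finset.abs_sum_le_sum_abs _ _).trans (Finset.sum_le_sum fun i _ => ?_)
    rw [eval_mul, eval_C, abs_mul]
    exact mul_le_of_le_one_right (abs_nonneg _) (abs_PP_le_one hd i ht)
  rw [← sq_abs]
  refine (pow_le_pow_left₀ (abs_nonneg _) h1 2).trans ?_
  refine Finset.sum_sq_le_sum_mul_sum_of_sq_le_mul _ (fun i _ => inv_nonneg.2 (nrm_pos hd3 i).le)
    (fun i _ => mul_nonneg (sq_nonneg _) (nrm_pos hd3 i).le) fun i _ => le_of_eq ?_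
  have := (nrm_pos hd3 (d := d) i).ne'
  rw [sq_abs]
  field_simp

lemma NN_nonneg [NeZero d] (hd : 3 ≤ d) (n : ℕ) : 0 ≤ NN d n :=
  Finset.sum_nonneg fun i _ => inv_nonneg.2 (nrm_pos hd i).le

/-- the weight is decreasing -/
lemma wt_le_of_abs {D : ℕ} {b t : ℝ} (hb : 0 ≤ b) (h : b ≤ |t|) : wt D t ≤ wt D b := by
  unfold wt
  have h1 : b ^ 2 ≤ t ^ 2 := by
    rw [← sq_abs t]
    exact pow_le_pow_left₀ hb h 2
  gcongr

/-- the mass outside of `[-b, b]` -/
lemma outer {D : ℕ} {b : ℝ} (hb0 : 0 < b) (hb1 : b < 1) {F : ℝ → ℝ} (hF : Continuous F) {S : ℝ}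
    (hS : ∀ t ∈ Icc (-1 : ℝ) 1, |F t| ≤ S) :
    |(∫ t in (-1 : ℝ)..1, F t * wt D t) - ∫ t in (-b)..b, F t * wt D t| ≤ 2 * S * wt D b := by
  have hS0 : 0 ≤ S := (abs_nonneg _).trans (hS 0 ⟨by norm_num, by norm_num⟩)
  have hw := continuous_wt D
  have hi : ∀ x y : ℝ, IntervalIntegrable (fun t => F t * wt D t) volume x y :=
    fun x y => (hF.mul hw).intervalIntegrable _ _
  have e1 : (∫ t in (-1 : ℝ)..1, F t * wt D t) - ∫ t in (-b)..b, F t * wt D t =
      (∫ t in (-1 : ℝ)..(-b), F t * wt D t) + ∫ t in b..1, F t * wt D t := by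
    rw [← intervalIntegral.integral_add_adjacent_intervals (hi (-1) (-b)) (hi (-b) 1),
      ← intervalIntegral.integral_add_adjacent_intervals (hi (-b) b) (hi b 1)]
    ring
  have hpt : ∀ t ∈ Icc (-1 : ℝ) 1, b ≤ |t| → ‖F t * wt D t‖ ≤ S * wt D b := by
    intro t ht hbt
    rw [norm_mul, Real.norm_eq_abs, Real.norm_eq_abs, abs_of_nonneg (wt_nonneg D t)]
    exact mul_le_mul (hS t ht) (wt_le_of_abs hb0.le hbt) (wt_nonneg _ _) hS0
  have e2 : ‖∫ t in (-1 : ℝ)..(-b), F t * wt D t‖ ≤ S * wt D b * |(-b) - (-1)| := by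
    refine intervalIntegral.norm_integral_le_of_norm_le_const fun t ht => ?_
    rw [uIoc_of_le (by linarith)] at ht
    refine hpt t ⟨ht.1.le, by linarith [ht.2]⟩ ?_
    rw [abs_of_neg (by linarith [ht.2])]
    linarith [ht.2]
  have e3 : ‖∫ t in b..1, F t * wt D t‖ ≤ S * wt D b * |1 - b| := by
    refine intervalIntegral.norm_integral_le_of_norm_le_const fun t ht => ?_
    rw [uIoc_of_le (by linarith)] at ht
    refine hpt t ⟨by linarith [ht.1], ht.2⟩ ?_
    rw [abs_of_pos (by linarith [ht.1])]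
    exact ht.1.le
  rw [Real.norm_eq_abs, show (-b) - (-1) = 1 - b by ring, abs_of_pos (by linarith : 0 < 1 - b)] at e2
  rw [Real.norm_eq_abs, abs_of_pos (by linarith : 0 < 1 - b)] at e3
  rw [e1]
  have hw0 := wt_nonneg D b
  have h4 : 0 ≤ S * wt D b := by positivity
  have h5 : S * wt D b * (1 - b) ≤ S * wt D b := by nlinarith
  have := abs_add_le (∫ t in (-1 : ℝ)..(-b), F t * wt D t) (∫ t in b..1, F t * wt D t)
  linarith

/-- polynomials of small degree live in `[-b, b]` -/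
theorem int_b [NeZero d] (hd : 4 ≤ d) {b : ℝ} (hb0 : 0 < b) (hb1 : b < 1) {n : ℕ}
    (hN : 4 * (cst d * NN d n * wt (d - 3) b) ≤ 1) {f : ℝ[X]} (hf : f.natDegree ≤ n) :
    ∫ t in (-1 : ℝ)..1, f.eval t ^ 2 * wt (d - 3) t ≤ 2 * ∫ t in (-b)..b, f.eval t ^ 2 * wt (d - 3) t := by
  set I := ∫ t in (-1 : ℝ)..1, f.eval t ^ 2 * wt (d - 3) t with hI
  have hI0 : 0 ≤ I := intervalIntegral.integral_nonneg (by norm_num) fun t _ =>
    mul_nonneg (sq_nonneg _) (wt_nonneg _ _)
  have hsup : ∀ t ∈ Icc (-1 : ℝ) 1, |f.eval t ^ 2| ≤ NN d n * (cst d * I) := by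
    intro t ht
    rw [abs_of_nonneg (sq_nonneg _)]
    have := sup_sq hd hf ht
    rwa [integral_den] at this
  have h := outer (D := d - 3) hb0 hb1 (F := fun t => f.eval t ^ 2) (f.continuous.pow 2) hsup
  rw [← hI] at h
  have h2 := (abs_le.1 h).2
  have h3 : 2 * (NN d n * (cst d * I)) * wt (d - 3) b ≤ I / 2 := by
    have h4 := mul_le_mul_of_nonneg_right hN hI0
    nlinarith
  linarith

/-- the size of `q` -/
theorem q_sup [NeZero d] (hd : 4 ≤ d) {b : ℝ} (hb0 : 0 < b) (hb1 : b < 1) {n : ℕ}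
    (hN : 4 * (cst d * NN d n * wt (d - 3) b) ≤ 1) {q : ℝ[X]} (hqn : q.natDegree ≤ n)
    (hq : ∀ f : ℝ[X], f.natDegree ≤ n → ∫ t in (-b)..b, q.eval t * (f.eval t * wt (d - 3) t) =
        ∫ t in (1 / 2 : ℝ)..1, f.eval t * wt (d - 3) t) :
    (∀ t ∈ Icc (-1 : ℝ) 1, |q.eval t| ≤ 2 * NN d n * (cst d * ∫ t in (1 / 2 : ℝ)..1, wt (d - 3) t)) ∧
    ∫ t in (-b)..b, q.eval t ^ 2 * wt (d - 3) t ≤
      2 * NN d n * (cst d * ∫ t in (1 / 2 : ℝ)..1, wt (d - 3) t) * ∫ t in (1 / 2 : ℝ)..1, wt (d - 3) t := by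
  have hw := continuous_wt (d - 3)
  have hc := cst_pos d
  have hNN := NN_nonneg (d := d) (by omega) n
  set μ := ∫ t in (1 / 2 : ℝ)..1, wt (d - 3) t with hμ
  have hμ0 : 0 ≤ μ := intervalIntegral.integral_nonneg (by norm_num) fun t _ => wt_nonneg _ t
  set I := ∫ t in (-1 : ℝ)..1, q.eval t ^ 2 * wt (d - 3) t with hI
  have hI0 : 0 ≤ I := intervalIntegral.integral_nonneg (by norm_num) fun t _ =>
    mul_nonneg (sq_nonneg _) (wt_nonneg _ _)
  set Q := ∫ t in (-b)..b, q.eval t ^ 2 * wt (d - 3) t with hQ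
  set M := √(NN d n * (cst d * I)) with hM
  have hM0 : 0 ≤ M := Real.sqrt_nonneg _
  have hM2 : M ^ 2 = NN d n * (cst d * I) := Real.sq_sqrt (by positivity)
  have hsup : ∀ t ∈ Icc (-1 : ℝ) 1, |q.eval t| ≤ M := by
    intro t ht
    apply Real.abs_le_sqrt
    have := sup_sq hd hqn ht
    rwa [integral_den] at this
  have hQe : Q = ∫ t in (1 / 2 : ℝ)..1, q.eval t * wt (d - 3) t := by
    rw [← hq q hqn, hQ]
    apply intervalIntegral.integral_congr
    intro t _
    simp only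
    ring
  have hQM : Q ≤ M * μ := by
    rw [hQe, hμ, ← intervalIntegral.integral_const_mul]
    apply intervalIntegral.integral_mono_on (by norm_num)
      ((q.continuous.mul hw).intervalIntegrable _ _) ((continuous_const.mul hw).intervalIntegrable _ _)
    intro t ht
    exact mul_le_mul_of_nonneg_right ((le_abs_self _).trans (hsup t ⟨by linarith [ht.1], ht.2⟩))
      (wt_nonneg _ _)
  have hIQ : I ≤ 2 * Q := int_b hd hb0 hb1 hN hqn
  have hMS : M ≤ 2 * NN d n * (cst d * μ) := by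
    rcases hM0.eq_or_lt with h0 | h0
    · rw [← h0]; positivity
    · have h1 : M * M ≤ (2 * NN d n * (cst d * μ)) * M := by
        calc M * M = NN d n * (cst d * I) := by rw [← hM2]; ring
          _ ≤ NN d n * (cst d * (2 * (M * μ))) := by
              gcongr
              exact hIQ.trans (by linarith)
          _ = _ := by ring
      exact le_of_mul_le_mul_right h1 h0
  exact ⟨fun t ht => (hsup t ht).trans hMS, hQM.trans (mul_le_mul_of_nonneg_right hMS hμ0)⟩

end Pool.Agent.Helper44.LLK
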